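import Pool.Agent.W851.BE.Stm

/-! BE-DEG1 (MP_160e9b_an): local degrees are at most the degree. -/

open Polynomial Topology Filter MeasureTheory

namespace Pool.Agent.W465.BEDeg1
open Pool.Agent.W95.BK Pool.Agent.W851.BE

universe u

theorem main : S_LDEX.{u} → S_ACT.{u} → S_DENSE.{u} → S_DEG1.{u} := by
  intro hL hA hD K _ _ _ f x hx
  classical
  obtain ⟨m, hm1, hm, he⟩ := hL K f x hx
  have hle : m ≤ f.d := by
    obtain ⟨U, -, -, hU⟩ := hm Set.univ Filter.univ_mem
    have := hD K (f.act (x : P1B K))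
    obtain ⟨b, hb⟩ := hU.exists
    rw [← hb, ← (hA K f).2.2.2.2 b]
    exact Multiset.card_le_card (Multiset.filter_le _ _)
  rw [he]
  exact ⟨hle, fun h => by omega⟩

end Pool.Agent.W465.BEDeg1
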